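import Pool.Agent.H69.SolCritical

/-!
# Contact type energy levels below the Mane critical value of the universal cover

We disprove the statement of Q1. The closed manifold is `M = Γ \ Sol`, a three-dimensional
solvmanifold, with left-invariant frame `X₀ = ∂_t`, `X₁ = e^t ∂_x`, `X₂ = e^{-t} ∂_y` and momenta
`mᵢ = p(Xᵢ)`. For `h = (m₀² + m₁² + (m₂ - 1)²) / 2` one has `e₀ = 0`, `c_u = 1/2`, and the one-form
`α = p dx + df`, `f = -m₀ + m₀ (m₂ - 1) / 4`, satisfies
`α(X_h) = m₀² (1 - m₂ / 4) + m₁² (2 - (m₂ - 1) / 4) + (m₂ - 1)² m₂ / 4`,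
which is positive on every level `{h = k}` with `0 < k < 1/2`.
-/

set_option autoImplicit false
open scoped Manifold ContDiff Topology
open Bundle Set

noncomputable section

namespace Pool.Agent.Results.MP_410757_gt.SolContactType

open Pool.Agent.H69

lemma finrank_E3 : Module.finrank ℝ E3 = 3 := by simp

lemma isClosedThreeManifold_solM : IsClosedThreeManifold E3 SolM where
  finrank_eq := finrank_E3
  compactSpace := inferInstance
  t2Space := inferInstance
  connectedSpace := inferInstance

lemma notSurface_solM : NotSurface E3 SolM := by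
  intro F _ _ T _ _ hF
  refine ⟨fun Φ => ?_⟩
  have e := Φ.mfderivToContinuousLinearEquiv one_ne_zero (qq 0)
  have e' : E3 ≃L[ℝ] F := e
  have h := e'.toLinearEquiv.finrank_eq
  rw [hF, finrank_E3] at h
  norm_num at h

/-- There are a closed connected smooth three-manifold `M` (which therefore is not the two-torus),
with universal covering `q : M' → M`, and a smooth convex superlinear Hamiltonian `h` on `T^*M`,
such that `e₀(h) < c_u(h)` and every energy level `{h = k}` with `e₀(h) < k < c_u(h)` is of contact
type. -/
theorem result :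
    ∃ (E : Type) (_ : NormedAddCommGroup E) (_ : NormedSpace ℝ E)
      (M : Type) (_ : TopologicalSpace M) (_ : ChartedSpace E M) (_ : IsManifold 𝓘(ℝ, E) ∞ M)
      (M' : Type) (_ : TopologicalSpace M') (_ : ChartedSpace E M') (_ : IsManifold 𝓘(ℝ, E) ∞ M')
      (q : M' → M) (h : TStar E M → ℝ),
      IsClosedThreeManifold E M ∧ NotSurface E M ∧ IsUniversalCovering E q ∧
      ContMDiff 𝓘(ℝ, CotSpace E) 𝓘(ℝ, ℝ) ∞ h ∧ IsConvexSuperlinear h ∧
      energyZero h < maneCritical (liftHamiltonian q h) ∧
      ∀ k : ℝ, energyZero h < k → k < maneCritical (liftHamiltonian q h) →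
        IsContactType h k := by
  refine ⟨E3, inferInstance, inferInstance, SolM, inferInstance, inferInstance, inferInstance, E3,
    inferInstance, inferInstance, inferInstance, qq, hSol, isClosedThreeManifold_solM,
    notSurface_solM, isUniversalCovering_qq, contMDiff_hSol, isConvexSuperlinear_hSol, ?_, ?_⟩
  · rw [energyZero_hSol, maneCritical_hSol]
    norm_num
  · intro k hk0 hk
    rw [energyZero_hSol] at hk0
    rw [maneCritical_hSol] at hk
    exact isContactType_sol hk0 hk

end Pool.Agent.Results.MP_410757_gt.SolContactType
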